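import Pool.Agent.Run7.h641.MK.Iface

/-!
# Piece LB of the project on Markov numbers (author helper889)

The one-sided asymptotics of the numbers `t` along a ray of the tree.
-/

set_option autoImplicit false

namespace Pool.Agent.Run7.h641.MK.LB

open Pool.Agent.Run7.h641.MK

lemma aux (l q A C : ℝ) (h : (l + q) * (A + C) < 2 * (A * l + C * q)) (h1 : q < l) (h2 : A < C) :
    False := by
  nlinarith [mul_pos (sub_pos.mpr h1) (sub_pos.mpr h2)]

/-- The statement for a real sequence with the recurrence. -/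
lemma core (hLG : S_LG) (hSEQ : S_SEQ) (hET : S_ET) (X Y : ℝ) (hX : 3 ≤ X) (hY : 3 ≤ Y)
    (x : ℕ → ℝ) (hrec : ∀ j, x (j + 2) + x j = X * x (j + 1)) (h0 : x 0 = Y)
    (heq : x 0 ^ 2 + x 1 ^ 2 + X ^ 2 = X * x 0 * x 1) (h1 : X * x 0 < 2 * x 1) :
    ∃ a : ℝ, 71 / 100 ≤ a ∧ Real.log (lam Y) - 26 / (X * Y) ^ 2 ≤ a ∧
      ∀ j : ℕ, j * Real.log (lam X) + a ≤ Real.log (lam (x j)) := by
  obtain ⟨hL1, -, -, hL4⟩ := hLG
  obtain ⟨hl1, hl2, -⟩ := hL1 X (by linarith)
  obtain ⟨A, C, hA, hC, hAC, hAC1, hx⟩ := hSEQ X (by linarith) x hrec (by rw [h0]; linarith) heq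
  have hl0 : 0 < lam X := by linarith
  have e0 : A + C = Y := by
    have := hx 0
    rw [h0] at this
    simpa using this.symm
  have hCA : C ≤ A := by
    by_contra hcon
    push Not at hcon
    have e1 : x 1 = A * lam X + C / lam X := by simpa using hx 1
    rw [h0, e1, ← e0] at h1
    have hinv : 1 / lam X < lam X := by
      rw [div_lt_iff₀ hl0]
      nlinarith
    have h3 : C / lam X = C * (1 / lam X) := by ring
    rw [h3] at h1
    have h4 : (lam X + 1 / lam X) * (A + C) < 2 * (A * lam X + C * (1 / lam X)) := by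
      rw [hl2]
      exact h1
    exact aux _ _ _ _ h4 hinv hcon
  obtain ⟨h71, h26⟩ := hET X Y A C hX hY hC hCA e0 hAC
  refine ⟨Real.log A, h71, h26, fun j => ?_⟩
  have hp : 0 < lam X ^ j := pow_pos hl0 j
  have h4 := hL4 (A * lam X ^ j) (C / lam X ^ j) (mul_pos hA hp) (div_pos hC hp) (by
    have : A * lam X ^ j * (C / lam X ^ j) = A * C := by
      field_simp
    rw [this]
    exact hAC1)
  rw [← hx j, Real.log_mul hA.ne' hp.ne', Real.log_pow] at h4
  linarith

lemma det_left (u v : ℤ × ℤ) (j : ℕ) : det u (v + (j : ℤ) • u) = det u v := by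
  simp only [det, Prod.fst_add, Prod.snd_add, Prod.smul_fst, Prod.smul_snd, smul_eq_mul]
  ring

lemma det_right (u v : ℤ × ℤ) (j : ℕ) : det (u + (j : ℤ) • v) v = det u v := by
  simp only [det, Prod.fst_add, Prod.snd_add, Prod.smul_fst, Prod.smul_snd, smul_eq_mul]
  ring

lemma Q_add (u v : ℤ × ℤ) (hu : Q u) (hv : Q v) (j : ℕ) : Q (u + (j : ℤ) • v) := by
  obtain ⟨h1, h2⟩ := hu
  obtain ⟨h3, h4⟩ := hv
  have hj : (0 : ℤ) ≤ j := Int.natCast_nonneg j
  constructor
  · simp only [Prod.fst_add, Prod.smul_fst, smul_eq_mul]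
    positivity
  · simp only [Prod.snd_add, Prod.smul_snd, smul_eq_mul]
    positivity

theorem t_LB : S_LB := by
  intro hLG hSEQ hET hVI m hm u v huv
  obtain ⟨hu, hv, hd⟩ := huv
  obtain ⟨hmu, hmv, hlt1, hlt2, hlt3, heq⟩ := hVI m hm u v ⟨hu, hv, hd⟩
  have hmu' : (1 : ℝ) ≤ m u := by exact_mod_cast hmu
  have hmv' : (1 : ℝ) ≤ m v := by exact_mod_cast hmv
  have hlt3' : (3 : ℝ) * m u * m v < 2 * m (u + v) := by exact_mod_cast hlt3
  have heq' : (m u : ℝ) ^ 2 + m v ^ 2 + m (u + v) ^ 2 = 3 * m u * m v * m (u + v) := by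
    exact_mod_cast heq
  constructor
  · have hrec : ∀ j : ℕ, (fun j : ℕ => 3 * (m (v + (j : ℤ) • u) : ℝ)) (j + 2) +
        (fun j : ℕ => 3 * (m (v + (j : ℤ) • u) : ℝ)) j =
        3 * (m u : ℝ) * (fun j : ℕ => 3 * (m (v + (j : ℤ) • u) : ℝ)) (j + 1) := by
      intro j
      have hB : B u (v + (j : ℤ) • u) := ⟨hu, Q_add v u hv hu j, by rw [det_left]; exact hd⟩
      have h := hm.left _ _ hB
      have e1 : u + (u + (v + (j : ℤ) • u)) = v + ((j + 2 : ℕ) : ℤ) • u := by
        push_cast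
        module
      have e2 : u + (v + (j : ℤ) • u) = v + ((j + 1 : ℕ) : ℤ) • u := by
        push_cast
        module
      rw [e1, e2] at h
      have h' : (m (v + ((j + 2 : ℕ) : ℤ) • u) : ℝ) + m (v + (j : ℤ) • u) =
          3 * m u * m (v + ((j + 1 : ℕ) : ℤ) • u) := by exact_mod_cast h
      simp only
      linear_combination 3 * h'
    have e0 : m (v + ((0 : ℕ) : ℤ) • u) = m v := by simp
    have e1 : m (v + ((1 : ℕ) : ℤ) • u) = m (u + v) := by simp [add_comm]
    obtain ⟨a, h1, h2, h3⟩ := core hLG hSEQ hET (3 * (m u : ℝ)) (3 * (m v : ℝ)) (by linarith)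
      (by linarith) (fun j : ℕ => 3 * (m (v + (j : ℤ) • u) : ℝ)) hrec
      (by simp only [e0]) (by simp only [e0, e1]; linear_combination 9 * heq')
      (by simp only [e0, e1]; nlinarith)
    exact ⟨a, h1, h2, h3⟩
  · have hrec : ∀ j : ℕ, (fun j : ℕ => 3 * (m (u + (j : ℤ) • v) : ℝ)) (j + 2) +
        (fun j : ℕ => 3 * (m (u + (j : ℤ) • v) : ℝ)) j =
        3 * (m v : ℝ) * (fun j : ℕ => 3 * (m (u + (j : ℤ) • v) : ℝ)) (j + 1) := by
      intro j
      have hB : B (u + (j : ℤ) • v) v := ⟨Q_add u v hu hv j, hv, by rw [det_right]; exact hd⟩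
      have h := hm.right _ _ hB
      have e1 : u + (j : ℤ) • v + v + v = u + ((j + 2 : ℕ) : ℤ) • v := by
        push_cast
        module
      have e2 : u + (j : ℤ) • v + v = u + ((j + 1 : ℕ) : ℤ) • v := by
        push_cast
        module
      rw [e1, e2] at h
      have h' : (m (u + ((j + 2 : ℕ) : ℤ) • v) : ℝ) + m (u + (j : ℤ) • v) =
          3 * m v * m (u + ((j + 1 : ℕ) : ℤ) • v) := by exact_mod_cast h
      simp only
      linear_combination 3 * h'
    have e0 : m (u + ((0 : ℕ) : ℤ) • v) = m u := by simp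
    have e1 : m (u + ((1 : ℕ) : ℤ) • v) = m (u + v) := by simp
    obtain ⟨a, h1, h2, h3⟩ := core hLG hSEQ hET (3 * (m v : ℝ)) (3 * (m u : ℝ)) (by linarith)
      (by linarith) (fun j : ℕ => 3 * (m (u + (j : ℤ) • v) : ℝ)) hrec
      (by simp only [e0]) (by simp only [e0, e1]; linear_combination 9 * heq')
      (by simp only [e0, e1]; nlinarith)
    rw [mul_comm (3 * (m v : ℝ)) (3 * (m u : ℝ))] at h2
    exact ⟨a, h1, h2, h3⟩

end Pool.Agent.Run7.h641.MK.LB
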